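import Pool.Agent.Y720.MZ.Kum4

/-!
# Mazur's question for the double covers branched along divisors of bidegree (2,4) (helper720)

`K` is a number field, `L` is a complete nontrivially normed field with a homomorphism
`σ : K →+* L` of dense range (so `L` is the completion of `K` at a place), and `X` is the double
cover

  `w² = F(Y, T) = ∑ᵢ T₀⁴⁻ⁱ T₁ⁱ Qᵢ(Y)`   of   `ℙⁿ⁻¹ × ℙ¹`, `n ≥ 2`,

where `Q₀, …, Q₄` are quadratic forms over `K` such that the generic fibres of both projections
(a quadric over `K(ℙ¹)` and a curve of genus one over `K(ℙⁿ⁻¹)`) are smooth. Special fibres may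
be arbitrarily bad. The ideals of the local Zariski
closures `Z_x` of the `K`-rational points, at all `L`-valued points, take only finitely many values.

Idea of the proof. Let `P = (w₀, x₀, z₀)` be a `K`-point with `w₀ ≠ 0` on a smooth fibre over `ℙ¹`.
It moves to points `(w_k, x_k, z₀)` on a conic of its fibre. The fibre of the other projection over
`x_k` is a curve of genus one, on which `P_k - ι(P_k)` (`ι` changes the sign of `w`) is a rational
point of the Jacobian. Some prime `𝔭` of `K` and some `k`, close to `0` in `L`, are such that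
`w_k` is divisible by a high power of `𝔭`. Then this point is `𝔭`-adically close to the
origin, hence of infinite order, and its multiples accumulate: `P_k` is a limit of rational points
of the curve. So a polynomial vanishing at the rational points close to `P` vanishes on these curves
for infinitely many `k` and then on `X`. The remaining fibres are finitely many, and there we use
the theorem for arbitrary quadrics. If all `Qᵢ` are proportional, `F = A(Y) h(T)`, the fibres over
the `x_k` are quadratic twists of one curve, and we use that the points of finite order of all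
twists together have only finitely many `x`-coordinates.
-/

set_option autoImplicit false

namespace Pool.Agent.Results.MP_f9f755_nt.BidegreeTwoFour

open Matrix Pool.Agent.Y720.MZ

universe u v

/-- **Mazur's question for the double covers branched along divisors of bidegree (2,4).** -/
theorem result :
    ∀ (K : Type u) [Field K] [NumberField K] (L : Type v) [NontriviallyNormedField L]
      [CompleteSpace L] (σ : K →+* L), DenseRange σ →
    ∀ (n : ℕ), 2 ≤ n → ∀ Q : Fin 5 → Matrix (Fin n) (Fin n) K, (∀ i, (Q i).IsSymm) →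
      -- the generic fibre over `ℙ¹` is smooth
      (∃ t : K, (∑ i : Fin 5, t ^ (i : ℕ) • Q i).det ≠ 0) →
      -- the generic fibre over `ℙⁿ⁻¹` is smooth of genus one
      (∃ Y : Fin n → K, 3 ≤ (∑ i : Fin 5, Polynomial.C (Y ⬝ᵥ Q i *ᵥ Y) *
          (Polynomial.X : Polynomial K) ^ (i : ℕ)).natDegree ∧
        (∑ i : Fin 5, Polynomial.C (Y ⬝ᵥ Q i *ᵥ Y) *
          (Polynomial.X : Polynomial K) ^ (i : ℕ)).Separable) →
      {J : Set (MvPolynomial (Option (Fin n ⊕ Fin 2)) K) |
        ∃ (w : L) (x : Fin n → L) (s : Fin 2 → L), x ≠ 0 ∧ s ≠ 0 ∧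
          w ^ 2 = ∑ i : Fin 5, s 0 ^ (4 - (i : ℕ)) * s 1 ^ (i : ℕ) * (x ⬝ᵥ (Q i).map σ *ᵥ x) ∧
          J = {f : MvPolynomial (Option (Fin n ⊕ Fin 2)) K |
            ∃ U ∈ nhds (w, x, s), ∀ (W : K) (Y : Fin n → K) (T : Fin 2 → K), Y ≠ 0 → T ≠ 0 →
              W ^ 2 = ∑ i : Fin 5, T 0 ^ (4 - (i : ℕ)) * T 1 ^ (i : ℕ) * (Y ⬝ᵥ Q i *ᵥ Y) →
              (∃ c d : L, c ≠ 0 ∧ d ≠ 0 ∧
                (c * d ^ 2 * σ W, (fun i => c * σ (Y i)), fun j => d * σ (T j)) ∈ U) →
              ∀ a b : K, MvPolynomial.eval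
                (fun o => o.elim (a * b ^ 2 * W) (Sum.elim (a • Y) (b • T))) f = 0}}.Finite := by
  intro K _ _ L _ _ σ hσ n hn Q hQ hdet hsep
  have : CharZero L := charZero_of_injective_ringHom σ.injective
  have : ProperSpace L := Pool.Agent.W279.Tri.properSpace_of_denseRange σ hσ
  have h1 : FAon σ (SQ Q) {x | (fun i => x (some (Sum.inl i))) ≠ 0 ∧
      (fun j => x (some (Sum.inr j))) ≠ 0} := by
    refine main24' hn σ hσ hQ ?_ ?_
    · obtain ⟨t, ht⟩ := hdet
      refine ⟨t, ?_⟩
      rw [Fin.sum_univ_five] at ht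
      simpa [T0] using ht
    · obtain ⟨Y, h3, hs⟩ := hsep
      refine ⟨Y, ?_⟩
      have e : (∑ i : Fin 5, Polynomial.C (Y ⬝ᵥ Q i *ᵥ Y) *
          (Polynomial.X : Polynomial K) ^ (i : ℕ)) =
          qpol (bf (Q 0) Y Y) (bf (Q 1) Y Y) (bf (Q 2) Y Y) (bf (Q 3) Y Y) (bf (Q 4) Y Y) := by
        rw [Fin.sum_univ_five]
        simp [qpol, bf]
      rw [e] at h3 hs
      exact ⟨h3, hs⟩
  unfold FAon at h1
  have h2 := Set.Finite.image
    (fun I : Ideal (MvPolynomial (Option (Fin n ⊕ Fin 2)) K) =>
      (I : Set (MvPolynomial (Option (Fin n ⊕ Fin 2)) K))) h1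
  refine h2.subset ?_
  rintro _ ⟨w, x, s, hx, hs, -, rfl⟩
  refine ⟨_, ⟨pt w x s, ⟨hx, hs⟩, rfl⟩, ?_⟩
  exact (cone24 σ hσ Q hx hs).symm

end Pool.Agent.Results.MP_f9f755_nt.BidegreeTwoFour
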