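import Pool.Agent.Y720.WE.N5
import Pool.Agent.Y720.WE.N6

/-!
# Mazur's question: Calabi–Yau varieties whose rational points are dense in the product of the sets
of `p`-adic points, for all `p` in a finite set of primes (helper720)

`X : w² = F(x₁, …, x_n)`, where `F` has degree `4` in each variable, is a double cover of `(ℙ¹)ⁿ`
branched along a divisor of multidegree `(4, …, 4)`, so a Calabi–Yau variety of dimension `n` if
the divisor is smooth. At the primes `p ≥ 11` in a finite set `S`, we assume that the homogeneous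
form of `F` is `ν L⁴ + β L³ M` modulo `p`, where `L` is a linear form `a₀ + ∑ aᵢ xᵢ` (made
homogeneous), `ν` is not a square, `β` and the `aᵢ` are not zero and `M` is the product of the
homogeneous coordinates; and that `p²` does not divide the values of the form at the zeros of `L`
modulo `p`. Then the curves of genus one in the directions of the coordinates have cuspidal
reduction (Kodaira type II), and there are no `p`-adic points at infinity.

If `X` has a rational point whose coordinate `w` is a unit at the primes in `S`, then the rational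
points are dense in the product of the sets `X(ℚ_p)`, for `p` in `S`, all of it, and all nonempty
open subsets of this product contain a Zariski dense set of rational points. So for `p` in `S` all
the local Zariski closures `Z_x` in Mazur's question are equal to `X`. These varieties exist for
all `S`, and they are Zariski dense in the space of all the double covers, with an arbitrary
behaviour modulo any number prime to `S`.

Idea of the proof. On a surface in `X` on which all coordinates but two are constant, the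
difference of the points over a rational point of `(ℙ¹)²`, in both fibrations by curves of genus
one, is a topological generator of the product over `p ∈ S` of the groups of local points,
isomorphic to `ℤ_p`, because `w` is a unit. So we can move along the fibres, to all the local
points of the surface, and then from surface to surface.
-/

set_option autoImplicit false

namespace Pool.Agent.Results.MP_f9f755_nt.CalabiYauDensity

open Pool.Agent.Y720.MZ

instance factPrime (p : Nat.Primes) : Fact (p : ℕ).Prime := ⟨p.2⟩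

/-- The form `∑ c_e ∏ xᵢ^(eᵢ) yᵢ^(4 - eᵢ)`, of degree `4` in each pair of variables `xᵢ, yᵢ`. -/
def form {n : ℕ} (c : (Fin n → Fin 5) → ℤ) {R : Type*} [CommRing R] (x y : Fin n → R) : R :=
  ∑ e : Fin n → Fin 5, (c e : R) * ∏ i, (x i ^ (e i : ℕ) * y i ^ (4 - (e i : ℕ)))

/-- The linear form `a₀ + ∑ aᵢ xᵢ`, made homogeneous: `a₀ ∏ yᵢ + ∑ aᵢ xᵢ ∏_{l ≠ i} y_l`. -/
def linear {n : ℕ} (a₀ : ℤ) (a : Fin n → ℤ) (x y : Fin n → ℤ) : ℤ :=
  a₀ * ∏ i, y i + ∑ i, a i * (x i * ∏ l ∈ Finset.univ.erase i, y l)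

/-- The point `(x, w)` lies on the variety `w² = F(x)`, where `F(x)` is the value of the form at
`y = (1, …, 1)`. -/
def OnVariety {n : ℕ} (c : (Fin n → Fin 5) → ℤ) {R : Type*} [CommRing R] (x : Fin n → R) (w : R) :
    Prop :=
  w ^ 2 = form c x fun _ => 1

/-- The polynomial `F`. -/
noncomputable def poly {n : ℕ} (c : (Fin n → Fin 5) → ℤ) : MvPolynomial (Fin n) ℚ :=
  ∑ e : Fin n → Fin 5, MvPolynomial.C (c e : ℚ) * ∏ i, MvPolynomial.X i ^ (e i : ℕ)

/-- Modulo `p`, the form is `ν L⁴ + β L³ M`, where `ν` is not a square, `β ≠ 0`, `L` is a linear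
form with nonzero coefficients `aᵢ` and `M` is the product of the `yᵢ`; and `p²` divides no value
of the form at a point of `(ℙ¹)ⁿ` at which `L` is divisible by `p`. -/
def CuspidalAt {n : ℕ} (c : (Fin n → Fin 5) → ℤ) (p : ℕ) : Prop :=
  ∃ (ν β a₀ : ℤ) (a : Fin n → ℤ), ¬ IsSquare (ν : ZMod p) ∧ ¬ (p : ℤ) ∣ β ∧
    (∀ i, ¬ (p : ℤ) ∣ a i) ∧
    (∀ x y : Fin n → ℤ, (p : ℤ) ∣
      form c x y - (ν * linear a₀ a x y ^ 4 + β * linear a₀ a x y ^ 3 * ∏ i, y i)) ∧
    ∀ x y : Fin n → ℤ, (∀ i, ¬ ((p : ℤ) ∣ x i ∧ (p : ℤ) ∣ y i)) →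
      (p : ℤ) ∣ linear a₀ a x y → ¬ (p : ℤ) ^ 2 ∣ form c x y

/-- **Calabi–Yau varieties whose rational points are dense in a product of sets of `p`-adic
points.** -/
theorem result :
    -- (1) density
    (∀ (n : ℕ), 3 ≤ n → ∀ (c : (Fin n → Fin 5) → ℤ) (S : Finset Nat.Primes),
      (∀ p ∈ S, 11 ≤ (p : ℕ) ∧ CuspidalAt c p) →
      (∃ (x : Fin n → ℚ) (w : ℚ), OnVariety c x w ∧ ∀ p ∈ S, ‖(w : ℚ_[p])‖ = 1) →
      ∀ (X : ∀ p : Nat.Primes, Fin n → ℚ_[p]) (W : ∀ p : Nat.Primes, ℚ_[p]),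
        (∀ p ∈ S, OnVariety c (X p) (W p)) →
        ∀ ε : ℝ, 0 < ε → ∃ (x : Fin n → ℚ) (w : ℚ), OnVariety c x w ∧
          ∀ p ∈ S, (∀ i, ‖(x i : ℚ_[p]) - X p i‖ < ε) ∧ ‖(w : ℚ_[p]) - W p‖ < ε) ∧
    -- (2) the rational points in each nonempty open subset are Zariski dense: a polynomial in `w`
    -- and `x` which vanishes at all of them is divisible by `w² - F`
    (∀ (n : ℕ), 3 ≤ n → ∀ (c : (Fin n → Fin 5) → ℤ) (S : Finset Nat.Primes), S.Nonempty →
      (∀ p ∈ S, 11 ≤ (p : ℕ) ∧ CuspidalAt c p) →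
      (∃ (x : Fin n → ℚ) (w : ℚ), OnVariety c x w ∧ ∀ p ∈ S, ‖(w : ℚ_[p])‖ = 1) →
      ∀ (X : ∀ p : Nat.Primes, Fin n → ℚ_[p]) (W : ∀ p : Nat.Primes, ℚ_[p]),
        (∀ p ∈ S, OnVariety c (X p) (W p)) →
        ∀ ε : ℝ, 0 < ε → ∀ g : MvPolynomial (Option (Fin n)) ℚ,
          (∀ (x : Fin n → ℚ) (w : ℚ), OnVariety c x w →
            (∀ p ∈ S, (∀ i, ‖(x i : ℚ_[p]) - X p i‖ < ε) ∧ ‖(w : ℚ_[p]) - W p‖ < ε) →
            MvPolynomial.eval (fun o => o.elim w x) g = 0) →
          (MvPolynomial.X none ^ 2 - MvPolynomial.rename some (poly c)) ∣ g) ∧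
    -- (3) existence: for all `n` and `S`, in all classes modulo integers `m` prime to `S` which
    -- contain a variety with a point `(0, r)` modulo `m`, the varieties which satisfy the
    -- conditions of (1) and (2), with the rational point `(0, w)`, are Zariski dense
    (∀ (n : ℕ) (S : Finset Nat.Primes) (m : ℕ) (c' : (Fin n → Fin 5) → ℤ) (r : ℤ)
      (P : MvPolynomial (Fin n → Fin 5) ℂ), 0 < m → (∀ p ∈ S, 11 ≤ (p : ℕ) ∧ Nat.Coprime m p) →
      (m : ℤ) ∣ r ^ 2 - c' 0 → P ≠ 0 →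
      ∃ (c : (Fin n → Fin 5) → ℤ) (w : ℤ), (∀ e, (m : ℤ) ∣ c e - c' e) ∧
        (∀ p ∈ S, CuspidalAt c p) ∧ OnVariety c (fun _ => 0) w ∧
        (∀ p ∈ S, ¬ ((p : ℕ) : ℤ) ∣ w) ∧ MvPolynomial.eval (fun e => (c e : ℂ)) P ≠ 0) := by
  have key : ∀ (n : ℕ) (c : (Fin n → Fin 5) → ℤ) (S : Finset Nat.Primes),
      (∀ p ∈ S, 11 ≤ (p : ℕ) ∧ CuspidalAt c p) → ∀ i : {p // p ∈ S},
      ∃ (ν β a₀ : ℤ) (a : Fin n → ℤ), SP ((i.1 : Nat.Primes) : ℕ) c ν β a₀ a := by
    intro n c S hS i
    obtain ⟨h11, ν, β, a₀, a, h1, h2, h3, h4, h5⟩ := hS i.1 i.2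
    exact ⟨ν, β, a₀, a, h11, h1, h2, h3, h4, h5⟩
  refine ⟨?_, ?_, ?_⟩
  · intro n hn c S hS hP X W hX ε hε
    obtain ⟨x₀, w₀, h0, hw⟩ := hP
    rcases isEmpty_or_nonempty {p // p ∈ S} with hE | hN
    · refine ⟨x₀, w₀, h0, fun p hp => (hE.false ⟨p, hp⟩).elim⟩
    · choose ν β a₀ a H using key n c S hS
      obtain ⟨x, w, g1, g2⟩ := dense_n (κ := {p // p ∈ S})
        (p := fun i => ((i.1 : Nat.Primes) : ℕ)) (c := c)
        (fun i j hij => Subtype.ext (Subtype.ext hij)) H
        (k₀ := ⟨0, by omega⟩) (j₀ := ⟨1, by omega⟩) (by simp) (x := x₀) (w := w₀) h0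
        (fun i => hw i.1 i.2) (X := fun i => X i.1) (W := fun i => W i.1)
        (fun i => hX i.1 i.2) hε
      exact ⟨x, w, g1, fun p hp => g2 ⟨p, hp⟩⟩
  · intro n hn c S hSn hS hP X W hX ε hε g hg
    obtain ⟨x₀, w₀, h0, hw⟩ := hP
    obtain ⟨p₀, hp₀⟩ := hSn
    have : Nonempty {p // p ∈ S} := ⟨⟨p₀, hp₀⟩⟩
    choose ν β a₀ a H using key n c S hS
    exact zar (κ := {p // p ∈ S})
      (p := fun i => ((i.1 : Nat.Primes) : ℕ)) (c := c)
      (fun i j hij => Subtype.ext (Subtype.ext hij)) H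
      (k₀ := ⟨0, by omega⟩) (j₀ := ⟨1, by omega⟩) (by simp) (x := x₀) (w := w₀) h0
      (fun i => hw i.1 i.2) (X := fun i => X i.1) (W := fun i => W i.1)
      (fun i => hX i.1 i.2) hε (g := g) (fun z r hr h => hg z r hr fun p hp => h ⟨p, hp⟩)
  · intro n S m c' r P hm hS hr hP
    obtain ⟨c, w, h1, h2, h3, h4, h5⟩ := exin S (fun p hp => (hS p hp).1) hm
      (fun p hp => (hS p hp).2) hr hP
    refine ⟨c, w, h1, fun p hp => ?_, ?_, h4, h5⟩
    · obtain ⟨ν, H⟩ := h2 p hp
      exact ⟨ν, 1 - ν, 1, fun _ => 1, H.hν, H.hβ, H.ha, H.h1, H.h2⟩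
    · show w ^ 2 = fm c (fun _ => (0 : ℤ)) fun _ => 1
      rw [fm_zero, h3]

end Pool.Agent.Results.MP_f9f755_nt.CalabiYauDensity
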