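import Pool.Agent.Y720.MZ.Kum4

/-!
# Mazur's question for double covers of Kummer type, in every dimension (helper720)

`K` is a number field, `L` is a complete nontrivially normed field with a homomorphism
`σ : K →+* L` of dense range (so `L` is the completion of `K` at a place), and `X` is the double
cover

  `w² = A(x) · q₁(z₁) ⋯ q_r(z_r)`   of   `ℙⁿ⁻¹ × (ℙ¹)ʳ`,

where `A` is an arbitrary quadratic form in `n` variables over `K` and `q₁, …, q_r` are arbitrary
squarefree binary quartic forms over `K`. For `n = 1` and `r = 2` these are the Kummer surfaces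
of products of two curves of genus one (K3 surfaces), and for `n = 1` and `r ≥ 3` they are singular
Calabi-Yau varieties of dimension `r`, the quotients of products `C₁ × ⋯ × C_r` of curves of genus
one by a group `(ℤ/2)ʳ⁻¹`. The ideals of the local Zariski closures `Z_x` of the `K`-rational
points, at all `L`-valued points `x` of `X`, take only finitely many values.

Idea of the proof. Fix all coordinates of a rational point `(w₀, x, z₁, …, z_r)` with `w₀ ≠ 0`,
except `z_i`. This gives a rational point on a quadratic twist `w² = C q_i(z)` of a fixed curve of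
genus one. The points of finite order of *all* the quadratic twists, taken together, have
only finitely many `x`-coordinates (good reduction); so for all but finitely many `z_i` the point
has infinite order on its twist and its multiples accumulate, and the local closure contains
the whole curve. Deforming the coordinates one after the other the local closure is a union of
sets of the form (all `z_i`, `i ∈ J`) × (one `z_j`, `j ∉ J`, from a finite set).
-/

set_option autoImplicit false

namespace Pool.Agent.Results.MP_f9f755_nt.KummerType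

open Matrix Pool.Agent.Y720.MZ

universe u v

/-- **Mazur's question for double covers of Kummer type.** -/
theorem result :
    ∀ (K : Type u) [Field K] [NumberField K] (L : Type v) [NontriviallyNormedField L]
      [CompleteSpace L] (σ : K →+* L), DenseRange σ →
    ∀ (n r : ℕ) (A : Matrix (Fin n) (Fin n) K), A.IsSymm → ∀ q : Fin r → Fin 5 → K,
      -- the binary quartic forms `q i` are squarefree
      (∀ i, 3 ≤ (∑ j : Fin 5, Polynomial.C (q i j) *
          (Polynomial.X : Polynomial K) ^ (j : ℕ)).natDegree ∧
        (∑ j : Fin 5, Polynomial.C (q i j) *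
          (Polynomial.X : Polynomial K) ^ (j : ℕ)).Separable) →
      {J : Set (MvPolynomial (Option (Fin n ⊕ (Fin r × Fin 2))) K) |
        ∃ (w : L) (x : Fin n → L) (s : Fin r → Fin 2 → L), x ≠ 0 ∧ (∀ j, s j ≠ 0) ∧
          w ^ 2 = (x ⬝ᵥ A.map σ *ᵥ x) *
            ∏ i, ∑ j : Fin 5, s i 0 ^ (4 - (j : ℕ)) * s i 1 ^ (j : ℕ) * σ (q i j) ∧
          J = {f : MvPolynomial (Option (Fin n ⊕ (Fin r × Fin 2))) K |
            ∃ U ∈ nhds (w, x, s), ∀ (W : K) (Y : Fin n → K) (Z : Fin r → Fin 2 → K),
              Y ≠ 0 → (∀ j, Z j ≠ 0) →
              W ^ 2 = (Y ⬝ᵥ A *ᵥ Y) *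
                ∏ i, ∑ j : Fin 5, Z i 0 ^ (4 - (j : ℕ)) * Z i 1 ^ (j : ℕ) * q i j →
              (∃ (c : L) (d : Fin r → L), c ≠ 0 ∧ (∀ j, d j ≠ 0) ∧
                (c * (∏ j, d j) ^ 2 * σ W, (fun i => c * σ (Y i)),
                  fun j a => d j * σ (Z j a)) ∈ U) →
              ∀ (a : K) (b : Fin r → K), MvPolynomial.eval
                (fun o => o.elim (a * (∏ j, b j) ^ 2 * W)
                  (Sum.elim (a • Y) fun p => b p.1 * Z p.1 p.2)) f = 0}}.Finite := by
  intro K _ _ L _ _ σ hσ n r A hA q hq
  have : CharZero L := charZero_of_injective_ringHom σ.injective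
  have : ProperSpace L := Pool.Agent.W279.Tri.properSpace_of_denseRange σ hσ
  have e : ∀ i, (∑ j : Fin 5, Polynomial.C (q i j) * (Polynomial.X : Polynomial K) ^ (j : ℕ)) =
      qp (q i) := by
    intro i
    rw [Fin.sum_univ_five]
    simp [qpol, qp]
  simp only [e] at hq
  have h1 := mainK σ hσ hA (q := q) (fun i => (hq i).2) fun i => (hq i).1
  unfold FAon at h1
  have h2 := Set.Finite.image
    (fun I : Ideal (MvPolynomial (Option (Fin n ⊕ (Fin r × Fin 2))) K) =>
      (I : Set (MvPolynomial (Option (Fin n ⊕ (Fin r × Fin 2))) K))) h1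
  refine h2.subset ?_
  rintro _ ⟨w, x, s, hx, hs, -, rfl⟩
  refine ⟨_, ⟨ptN w x s, hs, rfl⟩, ?_⟩
  exact (coneK σ hσ A q hx hs).symm

end Pool.Agent.Results.MP_f9f755_nt.KummerType
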