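import Pool.Agent.Y718.LZ.Dense
import Pool.Agent.TH783.CE.NF
import Pool.Agent.TH766.HP.T_RICH
import Pool.Agent.W279.Tri.LocComp

/-!
# Mazur's question for the double covers of projective space branched along smooth quartics

Let `K` be a number field and let `F` be a form of degree `4` over `K` in `n + 1 ≥ 3` variables such
that the hypersurface `B : F = 0` in `ℙⁿ` is smooth. Let `X` be the double cover `w² = F(Y)` of `ℙⁿ`:
a projective variety in the weighted projective space `ℙ(2, 1, …, 1)`, a del Pezzo surface of degree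
`2` for `n = 2`, a quartic double solid for `n = 3`. For a place of `K` with completion `L` and a
point `(w, x)` of `X` over `L` let `Z_(w,x)` be the intersection of the Zariski closures of the sets
of `K`-points of `X` in the neighbourhoods of `(w, x)`. The ideal of `Z_(w,x)` is `localIdeal σ F w x`,
where `σ` is the embedding of `K` in `L`. It consists of the polynomials in the coordinates which
vanish at the coordinates `(a² W, a Y)`, `a ∈ K`, of the `K`-points in some neighbourhood of `(w, x)`.

(1) There is a finite set of points of `ℙⁿ(K)` such that for every place of `K` and each `K`-point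
`P` of `X` outside the branch divisor and not above one of these points we have `Z_P = X`: the
`K`-points of `X` in each neighbourhood of `P` are Zariski dense in `X`.

(2) For all places of `K` the ideals of the sets `Z_(w,x)` with `w ≠ 0` take only finitely many
values.

(3) If for a place of `K` Mazur's question has a positive answer for the hypersurface `B`, then it
has a positive answer for `X` and this place.

(4) If `B` has only finitely many `K`-points (for example, if it has none; for `n = 2` it is a plane
curve of genus `3`, and this is always true by Faltings's theorem), then Mazur's question has a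
positive answer for `X` and all places of `K`.
-/

set_option autoImplicit false

namespace Pool.Agent.Results.MP_f9f755_nt.QuarticDoubleCovers

open MvPolynomial

/-- The ideal of the local Zariski closure at the point `(w, x)` of the set of the `K`-points of
the double cover `w² = F(Y)`. The variable `none` is `w`, the variable `some i` is `Y i`. -/
def localIdeal {n : ℕ} {K L : Type} [Field K] [NontriviallyNormedField L] (σ : K →+* L)
    (F : MvPolynomial (Fin (n + 1)) K) (w : L) (x : Fin (n + 1) → L) :
    Set (MvPolynomial (Option (Fin (n + 1))) K) :=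
  {f | ∃ U ∈ nhds (w, x), ∀ (W : K) (Y : Fin (n + 1) → K), Y ≠ 0 → W ^ 2 = eval Y F →
    (∃ c : L, c ≠ 0 ∧ (c ^ 2 * σ W, fun i => c * σ (Y i)) ∈ U) →
    ∀ a : K, eval (fun o => o.elim (a ^ 2 * W) (fun i => a * Y i)) f = 0}

/-- The ideals of the local Zariski closures at the points `(w, x)` over `L` of the double cover
`w² = F(Y)` with the property `P w`. -/
def localIdeals {n : ℕ} {K L : Type} [Field K] [NontriviallyNormedField L] (σ : K →+* L)
    (F : MvPolynomial (Fin (n + 1)) K) (P : L → Prop) :
    Set (Set (MvPolynomial (Option (Fin (n + 1))) K)) :=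
  {J | ∃ (w : L) (x : Fin (n + 1) → L), P w ∧ x ≠ 0 ∧ w ^ 2 = eval₂ σ x F ∧
    J = localIdeal σ F w x}

/-- The ideals of the local Zariski closures of the set of the `K`-points of the hypersurface
`F = 0` in `ℙⁿ` at its points `x` over `L`. -/
def branchIdeals {n : ℕ} {K L : Type} [Field K] [NontriviallyNormedField L] (σ : K →+* L)
    (F : MvPolynomial (Fin (n + 1)) K) : Set (Set (MvPolynomial (Fin (n + 1)) K)) :=
  {J | ∃ x : Fin (n + 1) → L, x ≠ 0 ∧ eval₂ σ x F = 0 ∧
    J = {f | ∃ U ∈ nhds x, ∀ Y : Fin (n + 1) → K, Y ≠ 0 → eval Y F = 0 →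
      (∃ c : L, c ≠ 0 ∧ (fun i => c * σ (Y i)) ∈ U) → ∀ a : K, eval (a • Y) f = 0}}

/-- **Mazur's question for double covers branched along smooth quartics, over number fields.** -/
theorem result :
    ∀ (K : Type) [Field K] [NumberField K] (n : ℕ) (F : MvPolynomial (Fin (n + 1)) K), 2 ≤ n →
    F.IsHomogeneous 4 →
    -- the hypersurface is smooth
    (∀ y : Fin (n + 1) → AlgebraicClosure K, (∀ i, aeval y (pderiv i F) = 0) → y = 0) →
    -- a finite set of points, and all places of `K`
    ∃ T : Finset (Fin (n + 1) → K), ∀ (L : Type) [NontriviallyNormedField L] [CompleteSpace L]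
      (σ : K →+* L), DenseRange σ →
      -- (1) the local Zariski closures at the `K`-points
      (∀ (W : K) (Y : Fin (n + 1) → K), W ≠ 0 → W ^ 2 = eval Y F →
        (∀ t ∈ T, ∀ c : K, Y ≠ c • t) →
        localIdeal σ F (σ W) (fun i => σ (Y i)) = {f | X none ^ 2 - rename some F ∣ f}) ∧
      -- (2) the points with nonzero `w`
      (localIdeals σ F (fun w => w ≠ 0)).Finite ∧
      -- (3) reduction to the branch divisor
      ((branchIdeals σ F).Finite → (localIdeals σ F (fun _ => True)).Finite) ∧
      -- (4) all points, if the hypersurface has finitely many `K`-points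
      ((∃ B : Finset (Fin (n + 1) → K), ∀ Y : Fin (n + 1) → K, eval Y F = 0 →
          ∃ t ∈ B, ∃ c : K, Y = c • t) → (localIdeals σ F (fun _ => True)).Finite) := by
  intro K _ _ n F hn hF hsm
  obtain ⟨P, hP, -, ⟨ρ⟩⟩ := Pool.Agent.TH783.CE.exists_embedding Pool.Agent.TH766.HP.four K
  obtain ⟨T, hT, hden⟩ := Pool.Agent.Y718.LZ.cone_dvd ρ hn hF hsm
  refine ⟨hT.toFinset, fun L _ _ σ hσ => ?_⟩
  have : CharZero L := charZero_of_injective_ringHom σ.injective
  have : ProperSpace L := Pool.Agent.W279.Tri.properSpace_of_denseRange σ hσ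
  have hI := fun (Y : Fin (n + 1) → K) (W : K) (hW : W ≠ 0) (hWY : W ^ 2 = eval Y F)
    (hY : ∀ t ∈ T, ∀ c : K, Y ≠ c • t) U hU f hf =>
      Pool.Agent.Y718.LZ.van_of_dvd (hden L σ Y W hW hWY hY U hU f hf)
  have h3 : (branchIdeals σ F).Finite → (localIdeals σ F (fun _ => True)).Finite := by
    intro hB
    have h1 := Pool.Agent.Y718.LZ.LJ_fin (σ := σ) hF hT hI
      (E := {e | e.2 ≠ 0 ∧ e.1 ^ 2 = eval₂ σ e.2 F}) (hB.subset (by
        rintro _ ⟨x, ⟨hx, hx'⟩, rfl⟩
        refine ⟨x, hx, ?_, rfl⟩
        have hx' : (0 : L) ^ 2 = eval₂ σ x F := hx'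
        rw [← hx']
        ring))
    refine h1.subset ?_
    rintro _ ⟨w, x, -, hx, hwx, rfl⟩
    exact ⟨w, x, ⟨hx, hwx⟩, rfl⟩
  refine ⟨?_, ?_, h3, ?_⟩
  · intro W Y hW hWY hY
    exact Pool.Agent.Y718.LZ.LJ_dvd hF hW hWY
      (hden L σ Y W hW hWY fun t ht => hY t (hT.mem_toFinset.2 ht))
  · have h1 := Pool.Agent.Y718.LZ.LJ_fin (σ := σ) hF hT hI (E := {e | e.1 ≠ 0})
      (Set.finite_empty.subset (by
        rintro _ ⟨x, hx, -⟩
        exact absurd rfl hx))
    refine h1.subset ?_
    rintro _ ⟨w, x, hw, -, -, rfl⟩
    exact ⟨w, x, hw, rfl⟩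
  · rintro ⟨B, hB⟩
    refine h3 ((Pool.Agent.Y718.LZ.BJ_fin (σ := σ) hF B.finite_toSet hB).subset ?_)
    rintro _ ⟨x, -, -, rfl⟩
    exact ⟨x, rfl⟩

end Pool.Agent.Results.MP_f9f755_nt.QuarticDoubleCovers
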